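import Pool.Agent.V11278.Cache.Final

/-!
# The minimax regret of online caching of inelastic contents in bipartite networks

Definitions (namespace `Pool.Agent.V11278.Cache`, file `Pool/Agent/V11278/Cache/Def.lean`), for a
network with users `I`, caches `J` and files `F`, in which `adj j` is the set of the users adjacent
to the cache `j`:

* `deg adj i` is the number of the caches adjacent to the user `i`;
* `Config C y`: `0 ≤ y j f ≤ 1` and `∑ f, y j f ≤ C` for every cache `j`;
* `reward adj x y = ∑ i, min 1 (∑ of y j (x i) over the caches j adjacent to i)` is the inelastic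
  reward of the configuration `y` if user `i` requests the file `x i`;
* `Policy I J F C`: a configuration for every finite sequence of past requests;
* `minimaxRegret F adj C T` is the infimum over the policies `π` of the supremum over the request
  sequences `x 0, …, x (T - 1)` of the best static reward minus the reward of the policy.
-/

set_option autoImplicit false

open Finset

namespace Pool.Agent.Results.MP_887eca_lc.MinimaxRegret

open Pool.Agent.V11278.Cache

/-- **The order of the minimax regret, for every network.** Let every cache have capacity `C ≥ 1`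
and exactly `d ≥ 1` adjacent users, and let `deg i` be the number of the caches adjacent to user `i`.

1. `R*_T ≤ ∑ i, min (√(C T deg i)) T` for every `T` (and every number of files).
2. If there are at least `2 C |J|` files, then `R*_T ≥ (1 / (4 d)) ∑ i, min (√(C T deg i)) T` for
   every `T`.
3. For `T ≥ C |J|` the sum is `√(C T) ∑ i, √(deg i)`.
4. `d √|J| ≤ ∑ i, √(deg i) ≤ d |J|`; the lower bound is attained if every user is adjacent to all
   caches or to none, the upper bound if every user is adjacent to at most one cache. -/
theorem result (I J F : Type) [Fintype I] [Fintype J] [Fintype F] [DecidableEq I] [DecidableEq J]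
    [DecidableEq F] [Nonempty J] (adj : J → Finset I) (C T d : ℕ) (hC : 1 ≤ C) (hd : 1 ≤ d)
    (hadj : ∀ j, (adj j).card = d) :
    minimaxRegret F adj C T ≤ ∑ i, min (√(C * T * deg adj i)) (T : ℝ) ∧
    (2 * C * Fintype.card J ≤ Fintype.card F →
      1 / (4 * d) * ∑ i, min (√(C * T * deg adj i)) (T : ℝ) ≤ minimaxRegret F adj C T) ∧
    (C * Fintype.card J ≤ T →
      ∑ i, min (√(C * T * deg adj i)) (T : ℝ) = √(C * T) * ∑ i, √(deg adj i)) ∧
    (d * √(Fintype.card J) ≤ ∑ i, √(deg adj i) ∧ ∑ i, √(deg adj i) ≤ d * Fintype.card J) ∧
    ((∀ i, deg adj i = 0 ∨ deg adj i = Fintype.card J) →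
      ∑ i, √(deg adj i) = d * √(Fintype.card J)) ∧
    ((∀ i, deg adj i ≤ 1) → ∑ i, √(deg adj i) = d * Fintype.card J) := by
  have hJ0 : (0 : ℝ) < Fintype.card J := Nat.cast_pos.2 Fintype.card_pos
  have hsJ : (0 : ℝ) < √(Fintype.card J) := Real.sqrt_pos.2 hJ0
  have hle : ∀ i, deg adj i ≤ Fintype.card J := fun i => Finset.card_le_univ _
  have hsum : ∑ i, (deg adj i : ℝ) = d * Fintype.card J := by
    have h1 : ∑ i, deg adj i = d * Fintype.card J := by
      calc ∑ i, deg adj i = ∑ i, ∑ j, if i ∈ adj j then 1 else 0 := by
            refine Finset.sum_congr rfl fun i _ => ?_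
            unfold deg nbr
            rw [Finset.card_filter]
        _ = ∑ j, ∑ i, if i ∈ adj j then 1 else 0 := Finset.sum_comm
        _ = ∑ _j : J, d := by
            refine Finset.sum_congr rfl fun j _ => ?_
            rw [← Finset.card_filter]
            rw [← hadj j]
            congr 1
            ext i
            simp
        _ = d * Fintype.card J := by
            rw [Finset.sum_const, Finset.card_univ, smul_eq_mul, mul_comm]
    exact_mod_cast h1
  refine ⟨upper adj C T hC, fun hF => lower adj C T d hC hd hadj hF, fun hT => ?_, ⟨?_, ?_⟩,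
    fun h => ?_, fun h => ?_⟩
  · rw [Finset.mul_sum]
    refine Finset.sum_congr rfl fun i _ => ?_
    rw [← Real.sqrt_mul (by positivity)]
    apply min_eq_left
    rw [Real.sqrt_le_left (Nat.cast_nonneg T)]
    have h1 : C * deg adj i ≤ T := (Nat.mul_le_mul_left C (hle i)).trans hT
    have h2 : (C : ℝ) * deg adj i ≤ T := by exact_mod_cast h1
    have h3 : (0 : ℝ) ≤ T := Nat.cast_nonneg T
    nlinarith
  · have h1 : ∀ i, (deg adj i : ℝ) / √(Fintype.card J) ≤ √(deg adj i) := by
      intro i
      rw [div_le_iff₀ hsJ, ← Real.sqrt_mul (Nat.cast_nonneg _)]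
      apply Real.le_sqrt_of_sq_le
      rw [sq]
      exact mul_le_mul_of_nonneg_left (by exact_mod_cast hle i) (Nat.cast_nonneg _)
    calc d * √(Fintype.card J) = ∑ i, (deg adj i : ℝ) / √(Fintype.card J) := by
          rw [← Finset.sum_div, hsum, mul_div_assoc, Real.div_sqrt]
      _ ≤ _ := Finset.sum_le_sum fun i _ => h1 i
  · rw [← hsum]
    refine Finset.sum_le_sum fun i _ => ?_
    rcases Nat.eq_zero_or_pos (deg adj i) with h | h
    · simp [h]
    · rw [Real.sqrt_le_left (Nat.cast_nonneg _)]
      have h1 : (1 : ℝ) ≤ deg adj i := by exact_mod_cast h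
      nlinarith
  · calc ∑ i, √(deg adj i : ℝ) = ∑ i, (deg adj i : ℝ) / √(Fintype.card J) := by
          refine Finset.sum_congr rfl fun i _ => ?_
          rcases h i with h1 | h1
          · simp [h1]
          · rw [h1, Real.div_sqrt]
      _ = d * √(Fintype.card J) := by
          rw [← Finset.sum_div, hsum, mul_div_assoc, Real.div_sqrt]
  · rw [← hsum]
    refine Finset.sum_congr rfl fun i _ => ?_
    have h1 := h i
    interval_cases hdeg : deg adj i <;> simp

end Pool.Agent.Results.MP_887eca_lc.MinimaxRegret
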